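import Pool.Agent.W8.LS.Stm

set_option autoImplicit false

namespace Pool.Agent.W274.LS

open Pool.Agent.W8.LS
open scoped Topology ContDiff

theorem st_symm (x : ℝ) : Real.smoothTransition (1 - x) = 1 - Real.smoothTransition x := by
  unfold Real.smoothTransition
  have h := Real.smoothTransition.pos_denom x
  have h2 : (1 : ℝ) - (1 - x) = x := by ring
  rw [h2]
  have h3 : expNegInvGlue (1 - x) + expNegInvGlue x ≠ 0 := by
    rw [add_comm]; exact h.ne'
  field_simp
  ring

theorem HfBasic_proof : HfBasic := by
  refine ⟨?_, ?_, ?_, ?_⟩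
  · unfold hf
    apply ContDiff.div_const
    apply ContDiff.sub
    · exact Real.smoothTransition.contDiff.comp (by fun_prop)
    · exact Real.smoothTransition.contDiff.comp (by fun_prop)
  · intro x
    unfold hf
    have e1 : 4 * -x - 1 / 2 = -4 * x - 1 / 2 := by ring
    have e2 : -4 * -x - 1 / 2 = 4 * x - 1 / 2 := by ring
    rw [e1, e2]
    ring
  · intro x hx
    unfold hf
    rw [abs_le] at hx
    rw [Real.smoothTransition.zero_of_nonpos (by linarith [hx.2]),
      Real.smoothTransition.zero_of_nonpos (by linarith [hx.1])]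
    simp
  · intro x h0 h1
    unfold hf
    rw [Real.smoothTransition.zero_of_nonpos (x := -4 * (1 / 2 - x) - 1 / 2) (by linarith),
      Real.smoothTransition.zero_of_nonpos (x := -4 * x - 1 / 2) (by linarith)]
    have e1 : 4 * (1 / 2 - x) - 1 / 2 = 1 - (4 * x - 1 / 2) := by ring
    rw [e1, st_symm]
    ring

end Pool.Agent.W274.LS
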