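import Pool.Agent.W8.LS.Stm

set_option autoImplicit false

namespace Pool.Agent.W274.LS

open Pool.Agent.W8.LS
open scoped Topology ContDiff
open Complex (I)

theorem int_eq_of_close (i j : ℤ) (h1 : (i : ℝ) - j < 1) (h2 : (j : ℝ) - i < 1) : i = j := by
  have a : ((i - j : ℤ) : ℝ) < 1 := by push_cast; exact h1
  have b : ((j - i : ℤ) : ℝ) < 1 := by push_cast; exact h2
  have a' : i - j < 1 := by exact_mod_cast a
  have b' : j - i < 1 := by exact_mod_cast b
  omega

theorem near_aux (k l m r K L M Rr n a : ℤ) (s c s' c' : ℝ) (z w z' w' : ℂ)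
    (hz : ‖z‖ ≤ 1 / 8) (hw : ‖w‖ ≤ 1 / 8) (hz' : ‖z'‖ ≤ 1 / 8) (hw' : ‖w'‖ ≤ 1 / 8)
    (hs : |s - s'| < 1 / 2) (hc : |c - c'| < 1 / 2)
    (h : site k l m r (s', c', z', w') = site K L M Rr (s + a, c + n, z, w)) :
    s = s' ∧ c = c' ∧ z' = z ∧ w' = w := by
  unfold site at h
  simp only [Prod.mk.injEq] at h
  obtain ⟨h1, h2, h3, h4⟩ := h
  have hn : n = 0 := by
    rw [abs_lt] at hc
    apply int_eq_of_close
    · push_cast; linarith [hc.1, hc.2]
    · push_cast; linarith [hc.1, hc.2]
  have zr := (Complex.abs_re_le_norm z).trans hz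
  have zi := (Complex.abs_im_le_norm z).trans hz
  have zr' := (Complex.abs_re_le_norm z').trans hz'
  have zi' := (Complex.abs_im_le_norm z').trans hz'
  have wr := (Complex.abs_re_le_norm w).trans hw
  have wi := (Complex.abs_im_le_norm w).trans hw
  have wr' := (Complex.abs_re_le_norm w').trans hw'
  have wi' := (Complex.abs_im_le_norm w').trans hw'
  rw [abs_le] at zr zi zr' zi' wr wi wr' wi'
  have h3r := congrArg Complex.re h3
  have h3i := congrArg Complex.im h3
  have h4r := congrArg Complex.re h4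
  have h4i := congrArg Complex.im h4
  simp at h3r h3i h4r h4i
  have hk : k = K := by
    apply int_eq_of_close <;> linarith [zr.1, zr.2, zr'.1, zr'.2]
  have hl : l = L := by
    apply int_eq_of_close <;> linarith [zi.1, zi.2, zi'.1, zi'.2]
  have hm : m = M := by
    apply int_eq_of_close <;> linarith [wr.1, wr.2, wr'.1, wr'.2]
  subst hk hl hm hn
  have hcc : c' = c := by simpa using h2
  subst hcc
  have hr : r = Rr := by
    apply int_eq_of_close
    · simp at h4i; linarith [wi.1, wi.2, wi'.1, wi'.2]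
    · simp at h4i; linarith [wi.1, wi.2, wi'.1, wi'.2]
  subst hr
  have ez : z' = z := by
    apply Complex.ext
    · linarith
    · linarith
  have ew : w' = w := by
    apply Complex.ext
    · linarith
    · simp at h4i; linarith
  subst ez ew
  have ha : a = 0 := by
    rw [abs_lt] at hs
    apply int_eq_of_close
    · push_cast; linarith [hs.1, hs.2]
    · push_cast; linarith [hs.1, hs.2]
  subst ha
  refine ⟨?_, rfl, rfl, rfl⟩
  push_cast at h1
  linarith

theorem NearSite_proof : NearSite := by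
  intro hA k l m r s c s' c' z w z' w' hz hw hz' hw' hs hc hrel
  obtain ⟨e, k1, l1, a, n, m1, r1, he, hQ⟩ := hrel
  rw [hA e k1 l1 a n m1 r1 k l m r s c z w he] at hQ
  have hcast : s + (k1 : ℝ) * l + a = s + ((k1 * l + a : ℤ) : ℝ) := by push_cast; ring
  rw [hcast] at hQ
  rcases he with rfl | rfl
  · have hQ' := near_aux k l m r _ _ _ _ n (k1 * l + a) s c s' c' (((1 : ℤ) : ℂ) * z)
      (((1 : ℤ) : ℂ) * w) z' w' (by simpa using hz) (by simpa using hw) hz' hw' hs hc hQ
    obtain ⟨p1, p2, p3, p4⟩ := hQ'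
    exact ⟨p1, p2, Or.inl ⟨by simpa using p3, by simpa using p4⟩⟩
  · have hQ' := near_aux k l m r _ _ _ _ n (k1 * l + a) s c s' c' (((-1 : ℤ) : ℂ) * z)
      (((-1 : ℤ) : ℂ) * w) z' w' (by simpa using hz) (by simpa using hw) hz' hw' hs hc hQ
    obtain ⟨p1, p2, p3, p4⟩ := hQ'
    exact ⟨p1, p2, Or.inr ⟨by simpa using p3, by simpa using p4⟩⟩

end Pool.Agent.W274.LS
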